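import Mathlib

/-!
# `MP_b0e7a9_co`: balls avoiding the `k`-skeleton of a simplex in the unit ball

Induction on `k` for the following statement: if `‖y‖ ^ 2 ≥ t` on the `k`-skeleton of the points
`u j` (`N` points), then `t ≤ ‖m‖ ^ 2 + β V` for the mean `m` and the variance `V` of the `u j` for
arbitrary weights `l`, `β = (N - 1 - k) / ((N - 1) (k + 1))`.

Step: for every `i` the statement for `k - 1` is applied to the points
`a u_i + (1 - a) u_j`, `j ≠ i`, with the weights `l j / (1 - l i)`, and the inequalities are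
averaged with the weights `ω_i = (l_i + l_i ‖u_i - m‖ ^ 2 / V) / 2`, where `a` is chosen such that
the linear terms cancel.
-/

set_option autoImplicit false

open scoped BigOperators RealInnerProductSpace

namespace Pool.Agent.helper23.BF

section
variable {E : Type*} [NormedAddCommGroup E] [InnerProductSpace ℝ E] {ι : Type*} [DecidableEq ι]

/-- the constant -/
noncomputable def be (k N : ℕ) : ℝ := ((N : ℝ) - 1 - k) / (((N : ℝ) - 1) * (k + 1))

/-- `t` is a lower bound for the squared norm on the `k`-skeleton -/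
def LB (k : ℕ) (J : Finset ι) (u : ι → E) (t : ℝ) : Prop :=
  ∀ F ⊆ J, F.card ≤ k + 1 → ∀ μ : ι → ℝ, (∀ j ∈ F, 0 ≤ μ j) → ∑ j ∈ F, μ j = 1 →
    t ≤ ‖∑ j ∈ F, μ j • u j‖ ^ 2

lemma var_eq (J : Finset ι) (l : ι → ℝ) (h1 : ∑ j ∈ J, l j = 1) (u : ι → E) :
    ∑ j ∈ J, l j * ‖u j - ∑ i ∈ J, l i • u i‖ ^ 2 =
      ∑ j ∈ J, l j * ‖u j‖ ^ 2 - ‖∑ i ∈ J, l i • u i‖ ^ 2 := by
  set m := ∑ i ∈ J, l i • u i with hm
  have e1 : ∀ j, l j * ‖u j - m‖ ^ 2 = l j * ‖u j‖ ^ 2 - 2 * ⟪l j • u j, m⟫ + l j * ‖m‖ ^ 2 := by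
    intro j
    rw [norm_sub_sq_real, real_inner_smul_left]
    ring
  simp only [e1, Finset.sum_add_distrib, Finset.sum_sub_distrib, ← Finset.mul_sum,
    ← Finset.sum_mul, h1, ← sum_inner, ← hm, real_inner_self_eq_norm_sq]
  ring

/-- the mean and the variance of the new points -/
lemma step_i (J : Finset ι) (l : ι → ℝ) (h1 : ∑ j ∈ J, l j = 1) (i : ι) (hi : i ∈ J)
    (hli : l i < 1) (z : ι → E) (hz : ∑ j ∈ J, l j • z j = 0) (m : E) (τ : ℝ) :
    (∑ j ∈ J.erase i, (l j / (1 - l i)) • (m + (l i + τ * (1 - l i)) • z i +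
      ((1 - τ) * (1 - l i)) • z j) = m + τ • z i) ∧
    (∑ j ∈ J.erase i, (l j / (1 - l i)) * ‖(m + (l i + τ * (1 - l i)) • z i +
      ((1 - τ) * (1 - l i)) • z j) - (m + τ • z i)‖ ^ 2 =
      (1 - τ) ^ 2 * ((1 - l i) * ∑ j ∈ J, l j * ‖z j‖ ^ 2 - l i * ‖z i‖ ^ 2)) := by
  have hp : (1 - l i) ≠ 0 := by linarith
  have s1 : ∑ j ∈ J.erase i, l j = 1 - l i := by
    rw [← h1, ← Finset.add_sum_erase J l hi]
    ring
  have s2 : ∑ j ∈ J.erase i, l j • z j = -(l i • z i) := by
    have := Finset.add_sum_erase J (fun j => l j • z j) hi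
    rw [hz] at this
    exact eq_neg_of_add_eq_zero_right this
  have s3 : ∑ j ∈ J.erase i, l j * ‖z j‖ ^ 2 = ∑ j ∈ J, l j * ‖z j‖ ^ 2 - l i * ‖z i‖ ^ 2 := by
    rw [← Finset.add_sum_erase J (fun j => l j * ‖z j‖ ^ 2) hi]
    ring
  constructor
  · have e1 : ∀ j, (l j / (1 - l i)) • (m + (l i + τ * (1 - l i)) • z i +
      ((1 - τ) * (1 - l i)) • z j) =
        (l j) • ((1 - l i)⁻¹ • (m + (l i + τ * (1 - l i)) • z i)) + (1 - τ) • (l j • z j) := by
      intro j
      rw [smul_add, smul_smul, smul_smul, smul_smul]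
      congr 2
      field_simp
    simp only [e1, Finset.sum_add_distrib, ← Finset.sum_smul, ← Finset.smul_sum, s1, s2]
    rw [smul_smul, mul_inv_cancel₀ hp, one_smul, smul_neg, smul_smul, add_assoc, ← sub_eq_add_neg,
      ← sub_smul]
    congr 2
    ring
  · have e1 : ∀ j, (m + (l i + τ * (1 - l i)) • z i +
      ((1 - τ) * (1 - l i)) • z j) - (m + τ • z i) =
        (1 - τ) • (l i • z i + (1 - l i) • z j) := by
      intro j
      module
    have e2 : ∀ j, (l j / (1 - l i)) * ‖(1 - τ) • (l i • z i + (1 - l i) • z j)‖ ^ 2 =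
        (1 - τ) ^ 2 * (1 - l i)⁻¹ * (l i ^ 2 * ‖z i‖ ^ 2) * l j +
        (1 - τ) ^ 2 * (2 * l i) * ⟪z i, l j • z j⟫ +
        (1 - τ) ^ 2 * (1 - l i) * (l j * ‖z j‖ ^ 2) := by
      intro j
      rw [norm_smul, mul_pow, Real.norm_eq_abs, sq_abs, norm_add_sq_real, norm_smul, norm_smul,
        mul_pow, mul_pow, Real.norm_eq_abs, Real.norm_eq_abs, sq_abs, sq_abs,
        real_inner_smul_left, real_inner_smul_right, real_inner_smul_right]
      field_simp
    have s4 : ∑ j ∈ J.erase i, ⟪z i, l j • z j⟫ = -(l i * ‖z i‖ ^ 2) := by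
      rw [← inner_sum, s2, inner_neg_right, real_inner_smul_right, real_inner_self_eq_norm_sq]
    simp only [e1, e2, Finset.sum_add_distrib, ← Finset.mul_sum, s1, s3, s4]
    field_simp
    ring

/-- the new points satisfy the lower bound -/
lemma LB_step {k : ℕ} {J : Finset ι} {u : ι → E} {t : ℝ} (h : LB (k + 1) J u t) (i : ι)
    (hi : i ∈ J) {a b : ℝ} (ha : 0 ≤ a) (hb : 0 ≤ b) (hab : a + b = 1) :
    LB k (J.erase i) (fun j => a • u i + b • u j) t := by
  intro F hF hc μ hμ hμ1
  have hiF : i ∉ F := fun hh => (Finset.mem_erase.1 (hF hh)).1 rfl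
  have key := h (insert i F) (Finset.insert_subset hi (hF.trans (Finset.erase_subset _ _)))
    (by rw [Finset.card_insert_of_notMem hiF]; omega) (fun j => if j = i then a else b * μ j)
    (fun j hj => by
      by_cases hji : j = i
      · simp [hji, ha]
      · simp only [hji, if_false]
        exact mul_nonneg hb (hμ j ((Finset.mem_insert.1 hj).resolve_left hji)))
    (by
      rw [Finset.sum_insert hiF, if_pos rfl]
      have : ∑ j ∈ F, (if j = i then a else b * μ j) = ∑ j ∈ F, b * μ j :=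
        Finset.sum_congr rfl fun j hj => by
          rw [if_neg]
          rintro rfl
          exact hiF hj
      rw [this, ← Finset.mul_sum, hμ1, mul_one, hab])
  have hv : ∑ j ∈ insert i F, (if j = i then a else b * μ j) • u j =
      ∑ j ∈ F, μ j • (a • u i + b • u j) := by
    rw [Finset.sum_insert hiF, if_pos rfl]
    have e1 : ∑ j ∈ F, (if j = i then a else b * μ j) • u j = ∑ j ∈ F, μ j • (b • u j) := by
      refine Finset.sum_congr rfl fun j hj => ?_
      rw [if_neg, smul_smul, mul_comm]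
      rintro rfl
      exact hiF hj
    rw [e1]
    simp only [smul_add, Finset.sum_add_distrib, ← Finset.sum_smul, hμ1, one_smul]
  rw [hv] at key
  exact key

/-- the averaging argument -/
lemma average {J : Finset ι} {l ζ cr : ι → ℝ} {V M t κ β : ℝ} (hl : ∀ j ∈ J, 0 ≤ l j)
    (hl1 : ∑ j ∈ J, l j = 1) (hζ : ∀ j ∈ J, 0 ≤ ζ j) (hV : 0 < V)
    (hVs : ∑ j ∈ J, l j * ζ j = V) (hcr : ∑ j ∈ J, l j * cr j = 0) (hκ0 : 0 ≤ κ) (hκ1 : κ ≤ 1)
    (hβ0 : 0 < β) (hβ : β ≤ 1 / 2) (hN : 0 < J.card)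
    (hκβ : β ^ 2 + κ * (1 - β) ^ 2 * (1 - 2 / J.card) = β)
    (h : ∀ i ∈ J, 0 < l i → ∀ τ : ℝ, 0 ≤ τ → τ ≤ 1 →
      t ≤ M + 2 * τ * cr i + τ ^ 2 * ζ i + κ * ((1 - τ) ^ 2 * ((1 - l i) * V - l i * ζ i))) :
    t ≤ M + β * V := by
  set ω : ι → ℝ := fun i => (l i + l i * ζ i / V) / 2 with hω
  set x : ι → ℝ := fun i => l i ^ 2 / ω i with hx
  have hζV : ∀ i, l i * ζ i = V * (2 * ω i - l i) := by
    intro i
    simp only [hω]
    field_simp
    ring
  have hω1 : ∑ i ∈ J, ω i = 1 := by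
    simp only [hω]
    rw [← Finset.sum_div, Finset.sum_add_distrib, ← Finset.sum_div, hl1, hVs, div_self hV.ne']
    norm_num
  have hωl : ∀ i ∈ J, l i / 2 ≤ ω i := by
    intro i hi
    have : 0 ≤ l i * ζ i / V := div_nonneg (mul_nonneg (hl i hi) (hζ i hi)) hV.le
    simp only [hω]
    linarith
  have key : ∀ i ∈ J, ω i * t ≤ ω i * M + 2 * β * (l i * cr i) +
      V * (β ^ 2 * (2 * l i - x i) +
        κ * (ω i - 2 * β * l i + β ^ 2 * x i - 2 * (ω i - β * l i) ^ 2)) := by
    intro i hi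
    rcases (hl i hi).eq_or_lt with h0 | h0
    · have hω0 : ω i = 0 := by simp [hω, ← h0]
      simp [hω0, ← h0, hx]
    · have hω0 : 0 < ω i := lt_of_lt_of_le (by linarith) (hωl i hi)
      have hτ0 : 0 ≤ β * l i / ω i := by positivity
      have hτ1 : β * l i / ω i ≤ 1 := by
        rw [div_le_one hω0]
        have := hωl i hi
        nlinarith
      have e1 := mul_le_mul_of_nonneg_left (h i hi h0 _ hτ0 hτ1) hω0.le
      refine e1.trans (le_of_eq ?_)
      have e2 : (1 - l i) * V - l i * ζ i = V * (1 - 2 * ω i) := by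
        rw [hζV]
        ring
      have e3 : ζ i = V * (2 * ω i - l i) / l i := by
        rw [← hζV]
        field_simp
      rw [e2, e3]
      simp only [hx]
      field_simp
      ring
  have hsum := Finset.sum_le_sum key
  set XX := ∑ i ∈ J, x i with hXX
  set Y := ∑ i ∈ J, (ω i - β * l i) ^ 2 with hY
  have hs1 : ∑ i ∈ J, (ω i * M + 2 * β * (l i * cr i) +
      V * (β ^ 2 * (2 * l i - x i) +
        κ * (ω i - 2 * β * l i + β ^ 2 * x i - 2 * (ω i - β * l i) ^ 2))) =
      M + V * (β ^ 2 * (2 - XX) + κ * (1 - 2 * β + β ^ 2 * XX - 2 * Y)) := by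
    simp only [Finset.sum_add_distrib, ← Finset.mul_sum, ← Finset.sum_mul,
      Finset.sum_sub_distrib, hω1, hcr, hl1, ← hXX, ← hY]
    ring
  rw [hs1, ← Finset.sum_mul, hω1, one_mul] at hsum
  have hX1 : 1 ≤ XX := by
    have e1 : ∀ i ∈ J, 2 * l i - ω i ≤ x i := by
      intro i hi
      rcases (hl i hi).eq_or_lt with h0 | h0
      · have hω0 : ω i = 0 := by simp [hω, ← h0]
        simp [hω0, ← h0, hx]
      · have hω0 : 0 < ω i := lt_of_lt_of_le (by linarith) (hωl i hi)
        simp only [hx]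
        rw [le_div_iff₀ hω0]
        nlinarith [sq_nonneg (l i - ω i)]
    have e2 := Finset.sum_le_sum e1
    rw [Finset.sum_sub_distrib, ← Finset.mul_sum, hl1, hω1] at e2
    linarith
  have hY1 : (1 - β) ^ 2 / J.card ≤ Y := by
    have e2 : (∑ i ∈ J, (ω i - β * l i)) ^ 2 ≤ J.card * ∑ i ∈ J, (ω i - β * l i) ^ 2 :=
      sq_sum_le_card_mul_sum_sq
    rw [Finset.sum_sub_distrib, ← Finset.mul_sum, hl1, hω1, mul_one] at e2
    rw [div_le_iff₀ (by exact_mod_cast hN)]
    linarith
  have hfin : β ^ 2 * (2 - XX) + κ * (1 - 2 * β + β ^ 2 * XX - 2 * Y) ≤ β := by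
    have e1 : β ^ 2 * (1 - κ) ≤ β ^ 2 * (1 - κ) * XX :=
      le_mul_of_one_le_right (mul_nonneg (sq_nonneg _) (by linarith)) hX1
    have e2 := mul_le_mul_of_nonneg_left hY1 hκ0
    have e3 : κ * ((1 - β) ^ 2 / J.card) = κ * (1 - β) ^ 2 * (1 / J.card) := by ring
    have e4 : κ * (1 - β) ^ 2 * (1 - 2 / J.card) =
      κ * (1 - β) ^ 2 - 2 * (κ * (1 - β) ^ 2 * (1 / J.card)) := by ring
    nlinarith [e1, e2, e3, e4, hκβ]
  calc t ≤ M + V * (β ^ 2 * (2 - XX) + κ * (1 - 2 * β + β ^ 2 * XX - 2 * Y)) := hsum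
    _ ≤ M + V * β := by
        have := mul_le_mul_of_nonneg_left hfin hV.le
        linarith
    _ = M + β * V := by ring

lemma be_zero {N : ℕ} (hN : 2 ≤ N) : be 0 N = 1 := by
  unfold be
  have : (2 : ℝ) ≤ N := by exact_mod_cast hN
  have h0 : (N : ℝ) - 1 ≠ 0 := by linarith
  push_cast
  field_simp
  ring

/-- the induction -/
theorem key (k : ℕ) : ∀ (J : Finset ι), k + 2 ≤ J.card → ∀ l : ι → ℝ, (∀ j ∈ J, 0 ≤ l j) →
    ∑ j ∈ J, l j = 1 → ∀ (u : ι → E) (t : ℝ), LB k J u t →
    t ≤ ‖∑ j ∈ J, l j • u j‖ ^ 2 +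
      be k J.card * ∑ j ∈ J, l j * ‖u j - ∑ i ∈ J, l i • u i‖ ^ 2 := by
  induction k with
  | zero =>
    intro J hJ l hl h1 u t ht
    rw [be_zero (by omega), one_mul, var_eq J l h1 u]
    have e1 : ∀ j ∈ J, l j * t ≤ l j * ‖u j‖ ^ 2 := by
      intro j hj
      refine mul_le_mul_of_nonneg_left ?_ (hl j hj)
      have := ht {j} (Finset.singleton_subset_iff.2 hj) (by simp) (fun _ => 1)
        (fun _ _ => zero_le_one) (by simp)
      simpa using this
    have e2 := Finset.sum_le_sum e1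
    rw [← Finset.sum_mul, h1, one_mul] at e2
    linarith
  | succ k ih =>
    intro J hJ l hl h1 u t ht
    set m := ∑ i ∈ J, l i • u i with hm
    set V := ∑ j ∈ J, l j * ‖u j - m‖ ^ 2 with hV
    have hz : ∑ j ∈ J, l j • (u j - m) = 0 := by
      simp only [smul_sub, Finset.sum_sub_distrib, ← Finset.sum_smul, h1, one_smul]
      rw [← hm, sub_self]
    have hVnn : 0 ≤ V := Finset.sum_nonneg fun j hj => mul_nonneg (hl j hj) (sq_nonneg _)
    rcases hVnn.eq_or_lt with hV0 | hV0
    · -- all points with positive weights coincide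
      rw [← hV0, mul_zero, add_zero]
      have e1 : ∃ j ∈ J, 0 < l j := by
        by_contra hcon
        push_neg at hcon
        have : ∑ j ∈ J, l j ≤ 0 := Finset.sum_nonpos hcon
        linarith
      obtain ⟨j, hj, hlj⟩ := e1
      have e2 : l j * ‖u j - m‖ ^ 2 = 0 :=
        (Finset.sum_eq_zero_iff_of_nonneg fun j hj => mul_nonneg (hl j hj) (sq_nonneg _)).1
          hV0.symm j hj
      have e3 : u j - m = 0 := by
        rcases mul_eq_zero.1 e2 with h | h
        · exact absurd h hlj.ne'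
        · exact norm_eq_zero.1 (pow_eq_zero_iff (two_ne_zero)|>.1 h)
      have := ht {j} (Finset.singleton_subset_iff.2 hj) (by simp) (fun _ => 1)
        (fun _ _ => zero_le_one) (by simp)
      rw [Finset.sum_singleton, one_smul, sub_eq_zero.1 e3] at this
      exact this
    · have hn : (k : ℝ) + 3 ≤ (J.card : ℝ) := by exact_mod_cast hJ
      have hk : (0 : ℝ) ≤ k := Nat.cast_nonneg k
      have hcr : ∑ j ∈ J, l j * ⟪m, u j - m⟫ = 0 := by
        have e1 : ∀ j, l j * ⟪m, u j - m⟫ = ⟪m, l j • (u j - m)⟫ := fun j => by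
          rw [real_inner_smul_right]
        simp only [e1]
        rw [← inner_sum, hz, inner_zero_right]
      have hb1 : be (k + 1) J.card =
          ((J.card : ℝ) - 2 - k) / (((J.card : ℝ) - 1) * ((k : ℝ) + 2)) := by
        unfold be
        push_cast
        congr 1
        · ring
        · ring
      have hb0 : be k (J.card - 1) =
          ((J.card : ℝ) - 2 - k) / (((J.card : ℝ) - 2) * ((k : ℝ) + 1)) := by
        unfold be
        rw [Nat.cast_sub (by omega)]
        push_cast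
        congr 1
        · ring
        · ring
      have hN1 : (0 : ℝ) < (J.card : ℝ) - 1 := by linarith
      have hN2 : (0 : ℝ) < (J.card : ℝ) - 2 := by linarith
      have hN3 : (0 : ℝ) < (J.card : ℝ) - 2 - k := by linarith
      have hN0 : (0 : ℝ) < (J.card : ℝ) := by linarith
      refine average (J := J) (l := l) (ζ := fun i => ‖u i - m‖ ^ 2) (cr := fun i => ⟪m, u i - m⟫)
        (κ := be k (J.card - 1)) hl h1 (fun i _ => sq_nonneg _) hV0 hV.symm hcr ?_ ?_ ?_ ?_ ?_ ?_ ?_
      · rw [hb0]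
        positivity
      · rw [hb0, div_le_one (by positivity)]
        nlinarith
      · rw [hb1]
        positivity
      · rw [hb1, div_le_iff₀ (by positivity)]
        nlinarith
      · exact_mod_cast hN0
      · rw [hb0, hb1]
        field_simp
        ring
      · intro i hi hli τ hτ0 hτ1
        have s1 : l i + ∑ j ∈ J.erase i, l j = 1 := by rw [Finset.add_sum_erase J l hi, h1]
        have s1' : 0 ≤ ∑ j ∈ J.erase i, l j :=
          Finset.sum_nonneg fun j hj => hl j (Finset.mem_of_mem_erase hj)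
        have hli1 : l i < 1 := by
          by_contra hcon
          have e0 : ∑ j ∈ J.erase i, l j = 0 := by linarith [not_lt.1 hcon]
          have e1 : ∀ j ∈ J.erase i, l j = 0 :=
            (Finset.sum_eq_zero_iff_of_nonneg fun j hj => hl j (Finset.mem_of_mem_erase hj)).1 e0
          have e2 : l i • (u i - m) = 0 := by
            have := Finset.add_sum_erase J (fun j => l j • (u j - m)) hi
            rw [hz, Finset.sum_eq_zero (fun j hj => by rw [e1 j hj, zero_smul]), add_zero] at this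
            exact this
          have e3 : u i - m = 0 := (smul_eq_zero.1 e2).resolve_left hli.ne'
          have e4 : V = 0 := by
            rw [hV, ← Finset.add_sum_erase J (fun j => l j * ‖u j - m‖ ^ 2) hi, e3,
              Finset.sum_eq_zero (fun j hj => by rw [e1 j hj, zero_mul])]
            simp
          exact hV0.ne' e4
        have hp : 0 < 1 - l i := by linarith
        have hcard : (J.erase i).card = J.card - 1 := Finset.card_erase_of_mem hi
        have ha : 0 ≤ l i + τ * (1 - l i) := by positivity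
        have hb : 0 ≤ (1 - τ) * (1 - l i) := mul_nonneg (by linarith) hp.le
        have hLB := LB_step ht i hi ha hb (by ring)
        have key := ih (J.erase i) (by omega) (fun j => l j / (1 - l i))
          (fun j hj => div_nonneg (hl j (Finset.mem_of_mem_erase hj)) hp.le)
          (by
            rw [← Finset.sum_div, div_eq_one_iff_eq hp.ne']
            linarith) _ t hLB
        have hu : ∀ j, (l i + τ * (1 - l i)) • u i + ((1 - τ) * (1 - l i)) • u j =
            m + (l i + τ * (1 - l i)) • (u i - m) + ((1 - τ) * (1 - l i)) • (u j - m) := by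
          intro j
          module
        obtain ⟨st1, st2⟩ := step_i J l h1 i hi hli1 (fun j => u j - m) hz m τ
        simp only [hu] at key
        rw [st1, st2, hcard] at key
        have e5 : ‖m + τ • (u i - m)‖ ^ 2 = ‖m‖ ^ 2 + 2 * τ * ⟪m, u i - m⟫ +
            τ ^ 2 * ‖u i - m‖ ^ 2 := by
          rw [norm_add_sq_real, norm_smul, mul_pow, Real.norm_eq_abs, sq_abs,
            real_inner_smul_right]
          ring
        rw [e5] at key
        exact key

end

/-- the frozen statement -/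
theorem main :
    ∀ (d k : ℕ), 0 < d → k < d →
    ∀ (p : Fin (d + 1) → EuclideanSpace ℝ (Fin d)), AffineIndependent ℝ p →
    (∀ i, ‖p i‖ ≤ 1) →
    ∀ (x : EuclideanSpace ℝ (Fin d)), x ∈ convexHull ℝ (Set.range p) →
    ∀ ρ : ℝ,
      Disjoint (Metric.ball x ρ)
        (⋃ (s : Finset (Fin (d + 1))) (_ : s.card = k + 1), convexHull ℝ (p '' (s : Set (Fin (d + 1))))) →
      ρ ≤ Real.sqrt (((d : ℝ) - (k : ℝ)) / ((d : ℝ) * ((k : ℝ) + 1))) := by
  intro d k hd hk p _ hp x hx ρ hρ
  classical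
  rcases le_or_gt ρ 0 with h0 | h0
  · exact h0.trans (Real.sqrt_nonneg _)
  -- the weights of `x`
  rw [convexHull_range_eq_exists_affineCombination] at hx
  obtain ⟨s, w, hw, hw1, hwx⟩ := hx
  rw [Finset.affineCombination_eq_linear_combination _ _ _ hw1] at hwx
  set l : Fin (d + 1) → ℝ := fun i => if i ∈ s then w i else 0 with hl
  have hl0 : ∀ j, 0 ≤ l j := by
    intro j
    simp only [hl]
    split_ifs with h
    · exact hw j h
    · exact le_rfl
  have hl1 : ∑ j, l j = 1 := by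
    simp only [hl]
    rw [Finset.sum_ite_mem, Finset.univ_inter, hw1]
  have hlx : ∑ j, l j • p j = x := by
    rw [← hwx]
    simp only [hl, ite_smul, zero_smul]
    rw [Finset.sum_ite_mem, Finset.univ_inter]
  -- the lower bound on the skeleton
  have hLB : LB k (Finset.univ : Finset (Fin (d + 1))) (fun j => p j - x) (ρ ^ 2) := by
    intro F _ hc μ hμ hμ1
    obtain ⟨G, hFG, -, hG⟩ := Finset.exists_subsuperset_card_eq (Finset.subset_univ F) hc
      (by rw [Finset.card_univ, Fintype.card_fin]; omega)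
    have e1 : ∑ j ∈ F, μ j • p j ∈ convexHull ℝ (p '' (G : Set (Fin (d + 1)))) := by
      refine (convex_convexHull ℝ _).sum_mem hμ hμ1 fun j hj => subset_convexHull ℝ _ ?_
      exact ⟨j, hFG hj, rfl⟩
    have e2 : ∑ j ∈ F, μ j • (p j - x) = ∑ j ∈ F, μ j • p j - x := by
      simp only [smul_sub, Finset.sum_sub_distrib, ← Finset.sum_smul, hμ1, one_smul]
    rw [e2]
    have e3 : ρ ≤ ‖∑ j ∈ F, μ j • p j - x‖ := by
      by_contra hcon
      have e4 : (∑ j ∈ F, μ j • p j) ∈ Metric.ball x ρ := by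
        rw [Metric.mem_ball, dist_eq_norm]
        exact not_le.1 hcon
      exact Set.disjoint_left.1 hρ e4 (Set.mem_iUnion₂.2 ⟨G, hG, e1⟩)
    exact pow_le_pow_left₀ h0.le e3 2
  have hkey := key k (Finset.univ : Finset (Fin (d + 1)))
    (by rw [Finset.card_univ, Fintype.card_fin]; omega) l (fun j _ => hl0 j) hl1
    (fun j => p j - x) (ρ ^ 2) hLB
  have hmean : ∑ j, l j • (p j - x) = 0 := by
    simp only [smul_sub, Finset.sum_sub_distrib, ← Finset.sum_smul, hl1, one_smul]
    rw [hlx, sub_self]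
  rw [hmean, norm_zero, Finset.card_univ, Fintype.card_fin] at hkey
  simp only [sub_zero] at hkey
  have hvar : ∑ j, l j * ‖p j - x‖ ^ 2 ≤ 1 := by
    have e1 := var_eq (Finset.univ : Finset (Fin (d + 1))) l hl1 p
    rw [hlx] at e1
    rw [e1]
    have e2 : ∑ j, l j * ‖p j‖ ^ 2 ≤ ∑ j, l j * 1 := by
      refine Finset.sum_le_sum fun j _ => mul_le_mul_of_nonneg_left ?_ (hl0 j)
      exact pow_le_one₀ (norm_nonneg _) (hp j)
    simp only [mul_one, hl1] at e2
    have e3 : 0 ≤ ‖x‖ ^ 2 := sq_nonneg _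
    linarith
  have hbe : be k (d + 1) = ((d : ℝ) - k) / ((d : ℝ) * ((k : ℝ) + 1)) := by
    unfold be
    push_cast
    congr 1
    · ring
    · ring
  have hd' : (0 : ℝ) < d := by exact_mod_cast hd
  have hk' : (k : ℝ) < d := by exact_mod_cast hk
  have hk0 : (0 : ℝ) ≤ k := Nat.cast_nonneg k
  refine Real.le_sqrt_of_sq_le ?_
  rw [hbe] at hkey
  have h2 : 0 ≤ ((d : ℝ) - k) / ((d : ℝ) * ((k : ℝ) + 1)) :=
    div_nonneg (by linarith) (by positivity)
  have h3 := mul_le_mul_of_nonneg_left hvar h2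
  rw [mul_one] at h3
  have h4 : (0 : ℝ) ^ 2 = 0 := by norm_num
  rw [h4, zero_add] at hkey
  exact hkey.trans h3

end Pool.Agent.helper23.BF
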